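import Mathlib

set_option autoImplicit false

namespace Pool.Agent.Results.MP_b8a264_an.No

open MeasureTheory Matrix
open scoped ENNReal

variable {k d : ℕ} {e : Fin k → ℕ}

/-- a datum: onto maps and positive exponents -/
def Datum (B : ∀ i, Matrix (Fin (e i)) (Fin d) ℝ) (c : Fin k → ℝ) : Prop :=
  (∀ i, Function.Surjective (B i).mulVec) ∧ ∀ i, 0 < c i

/-- finite constant -/
def Feasible (B : ∀ i, Matrix (Fin (e i)) (Fin d) ℝ) (c : Fin k → ℝ) : Prop :=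
  ∃ C : ℝ≥0∞, C < ⊤ ∧ ∀ f : ∀ i, (Fin (e i) → ℝ) → ℝ, (∀ i x, 0 ≤ f i x) →
    (∀ i, Integrable (f i)) →
    ∫⁻ x, ∏ i, ENNReal.ofReal (f i (B i *ᵥ x)) ^ c i ≤
      C * ∏ i, (∫⁻ y, ENNReal.ofReal (f i y)) ^ c i

/-- the gaussian quotient -/
noncomputable def G (B : ∀ i, Matrix (Fin (e i)) (Fin d) ℝ) (c : Fin k → ℝ)
    (A : ∀ i, Matrix (Fin (e i)) (Fin (e i)) ℝ) : ℝ :=
  √((∏ i, (A i).det ^ c i) / (∑ i, c i • ((B i)ᵀ * A i * B i)).det)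

/-- the gaussian supremum is attained -/
def Extremizable (B : ∀ i, Matrix (Fin (e i)) (Fin d) ℝ) (c : Fin k → ℝ) : Prop :=
  ∃ A, (∀ i, (A i).PosDef) ∧ ∀ A', (∀ i, (A' i).PosDef) → G B c A' ≤ G B c A

theorem cv (M : Matrix (Fin 3) (Fin 3) ℝ) (hM : |M.det| = 1) (F : (Fin 2 → ℝ) → ℝ≥0∞)
    (g : (Fin 1 → ℝ) → ℝ≥0∞) (hF : AEMeasurable F) (hg : AEMeasurable g) :
    AEMeasurable (fun x => g (fun _ => (M *ᵥ x) 0) * F fun j => (M *ᵥ x) j.succ) ∧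
    ∫⁻ x, g (fun _ => (M *ᵥ x) 0) * F (fun j => (M *ᵥ x) j.succ) = (∫⁻ y, g y) * ∫⁻ y, F y := by
  have h0 : M.det ≠ 0 := fun h => by simp [h] at hM
  have a : MeasurePreserving (toLin' M) := ⟨(toLin' M).continuous_of_finiteDimensional.measurable, by
    rw [Real.map_matrix_volume_pi_eq_smul_volume_pi h0, abs_inv, hM]; simp⟩
  have b := (((volume_preserving_funUnique (Fin 1) ℝ).symm _).prod (MeasurePreserving.id volume)).comp
    ((volume_preserving_piFinSuccAbove (fun _ : Fin 3 => ℝ) 0).comp a)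
  have m : AEMeasurable (fun z : (Fin 1 → ℝ) × (Fin 2 → ℝ) => g z.1 * F z.2) (volume.prod volume) :=
    hg.comp_fst.mul hF.comp_snd
  refine ⟨m.comp_quasiMeasurePreserving b.quasiMeasurePreserving, ?_⟩
  rw [← lintegral_prod_mul hg hF]
  exact (lintegral_map' (b.map_eq.symm ▸ m) b.aemeasurable).symm.trans (by erw [b.map_eq])

theorem dt (p : Matrix (Fin 2) (Fin 3) ℝ) (q r : Matrix (Fin 1) (Fin 3) ℝ)
    (A : Matrix (Fin 2) (Fin 2) ℝ) (S T : Matrix (Fin 1) (Fin 1) ℝ) (a b c : ℝ) :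
    (a • (pᵀ * A * p) + b • (qᵀ * S * q) + c • (rᵀ * T * r)).det =
      a ^ 2 * A.det * (b * S.det * (crossProduct (p 0) (p 1) ⬝ᵥ q 0) ^ 2 +
        c * T.det * (crossProduct (p 0) (p 1) ⬝ᵥ r 0) ^ 2) + a * b * c * S.det * T.det *
        ((p *ᵥ crossProduct (q 0) (r 0)) ⬝ᵥ A *ᵥ (p *ᵥ crossProduct (q 0) (r 0))) := by
  simp [det_fin_three, det_fin_two, mul_apply, Fin.sum_univ_succ, cross_apply, mulVec, dotProduct]
  ring

theorem sh (A : Matrix (Fin 2) (Fin 2) ℝ) (hA : A.PosDef) (w : Fin 2 → ℝ) (hw : w ≠ 0) :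
    0 < w ⬝ᵥ A *ᵥ w ∧ ∃ A' : Matrix (Fin 2) (Fin 2) ℝ, A'.PosDef ∧ A'.det = A.det ∧
      w ⬝ᵥ A' *ᵥ w = w ⬝ᵥ A *ᵥ w / 2 := by
  have h : 0 < w ⬝ᵥ A *ᵥ w := by simpa using hA.dotProduct_mulVec_pos hw
  refine ⟨h, (1 / 2 : ℝ) • A + (3 / 2 * A.det / (w ⬝ᵥ A *ᵥ w)) •
    vecMulVec ![-w 1, w 0] (star ![-w 1, w 0]), (hA.smul (by norm_num)).add_posSemidef
      ((posSemidef_vecMulVec_self_star _).smul (by have := hA.det_pos; positivity)), ?_, ?_⟩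
  · have := div_mul_cancel₀ (3 / 2 * A.det) h.ne'
    generalize 3 / 2 * A.det / (w ⬝ᵥ A *ᵥ w) = t at this ⊢
    simp [det_fin_two, Fin.sum_univ_succ, mulVec, dotProduct, vecMulVec_apply] at this ⊢
    linear_combination this / 2
  · generalize 3 / 2 * A.det / (w ⬝ᵥ A *ᵥ w) = t
    simp [Fin.sum_univ_succ, mulVec, dotProduct, vecMulVec_apply]
    ring

/-- the example -/
def B0 : ∀ i : Fin 3, Matrix (Fin (![2, 1, 1] i)) (Fin 3) ℝ
  | 0 => !![0, 1, -1; 1, 0, 0]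
  | 1 => !![0, 1, 0]
  | 2 => !![0, 0, 1]

theorem result : ∃ (k d : ℕ) (e : Fin k → ℕ) (B : ∀ i, Matrix (Fin (e i)) (Fin d) ℝ)
    (c : Fin k → ℝ) (ε : ℝ), 0 < k ∧ 0 < d ∧ (∀ i, 0 < e i) ∧ 0 < ε ∧ Datum B c ∧ Feasible B c ∧
    ∀ (B' : ∀ i, Matrix (Fin (e i)) (Fin d) ℝ) (c' : Fin k → ℝ), Datum B' c' →
      (∀ i r s, |B i r s - B' i r s| < ε) → ¬ Extremizable B' c' := by
  refine ⟨3, 3, ![2, 1, 1], B0, ![1, 1 / 2, 1 / 2], 1 / 10, by norm_num, by norm_num, by decide,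
    by norm_num, ⟨fun i => ?_, fun i => by fin_cases i <;> simp⟩, ⟨1, by simp, fun f _ hf => ?_⟩, ?_⟩
  · fin_cases i
    · intro (y : Fin 2 → ℝ)
      exact ⟨![y 1, y 0, 0], show !![0, 1, -1; 1, 0, 0] *ᵥ _ = y by ext j; fin_cases j <;> simp⟩
    · intro (y : Fin 1 → ℝ)
      exact ⟨![0, y 0, 0], show !![0, 1, 0] *ᵥ _ = y by ext j; fin_cases j; simp⟩
    · intro (y : Fin 1 → ℝ)
      exact ⟨![0, 0, y 0], show !![0, 0, 1] *ᵥ _ = y by ext j; fin_cases j; simp⟩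
  · have m := fun i => (hf i).aemeasurable.ennreal_ofReal
    obtain ⟨a1, a2⟩ := cv !![0, 1, 0; 0, 1, -1; 1, 0, 0] (by simp [det_fin_three]) _ _ (m 0) (m 1)
    obtain ⟨b1, b2⟩ := cv !![0, 0, 1; 0, 1, -1; 1, 0, 0] (by simp [det_fin_three]) _ _ (m 0) (m 2)
    have := ENNReal.lintegral_mul_norm_pow_le a1 b1 (p := 1 / 2) (q := 1 / 2) (by norm_num)
      (by norm_num) (by norm_num)
    rw [a2, b2] at this
    have t : ∀ x y z : ℝ≥0∞, (y * x) ^ (1 / 2 : ℝ) * (z * x) ^ (1 / 2 : ℝ) =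
        x ^ (1 : ℝ) * y ^ (1 / 2 : ℝ) * z ^ (1 / 2 : ℝ) := fun x y z => by
      rw [ENNReal.mul_rpow_of_nonneg _ _ (by norm_num), ENNReal.mul_rpow_of_nonneg _ _ (by norm_num),
        show (1 : ℝ) = 1 / 2 + 1 / 2 by norm_num, ENNReal.rpow_add_of_nonneg] <;> [ring; norm_num; norm_num]
    simp only [t] at this
    simp only [Fin.prod_univ_three, one_mul]
    refine (lintegral_congr fun x => ?_).trans_le this
    have k0 : B0 0 *ᵥ x = fun j : Fin 2 => (!![0, 1, 0; 0, 1, -1; 1, 0, 0] *ᵥ x) j.succ :=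
      funext fun j : Fin 2 => by fin_cases j <;> rfl
    have k1 : B0 1 *ᵥ x = fun _ : Fin 1 => (!![0, 1, 0; 0, 1, -1; 1, 0, 0] *ᵥ x) 0 :=
      funext fun j : Fin 1 => by fin_cases j; rfl
    have k2 : B0 2 *ᵥ x = fun _ : Fin 1 => (!![0, 0, 1; 0, 1, -1; 1, 0, 0] *ᵥ x) 0 :=
      funext fun j : Fin 1 => by fin_cases j; rfl
    rw [k0, k1, k2]
    exact (t _ _ _).symm.trans (by congr! 5)
  rintro B c ⟨-, hc⟩ hB ⟨A, hA, H⟩
  let p : Matrix (Fin 2) (Fin 3) ℝ := B 0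
  let q : Matrix (Fin 1) (Fin 3) ℝ := B 1
  let r : Matrix (Fin 1) (Fin 3) ℝ := B 2
  have hw : p *ᵥ crossProduct (q 0) (r 0) ≠ 0 := fun h => by
    have := congrFun h 1
    have a0 : |1 - p 1 0| < 1 / 10 := hB 0 (1 : Fin 2) 0
    have a1 : |0 - p 1 1| < 1 / 10 := hB 0 (1 : Fin 2) 1
    have a2 : |0 - p 1 2| < 1 / 10 := hB 0 (1 : Fin 2) 2
    have b0 : |0 - q 0 0| < 1 / 10 := hB 1 (0 : Fin 1) 0
    have b1 : |1 - q 0 1| < 1 / 10 := hB 1 (0 : Fin 1) 1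
    have b2 : |0 - q 0 2| < 1 / 10 := hB 1 (0 : Fin 1) 2
    have c0 : |0 - r 0 0| < 1 / 10 := hB 2 (0 : Fin 1) 0
    have c1 : |0 - r 0 1| < 1 / 10 := hB 2 (0 : Fin 1) 1
    have c2 : |1 - r 0 2| < 1 / 10 := hB 2 (0 : Fin 1) 2
    simp [Fin.sum_univ_succ, cross_apply, mulVec, dotProduct] at this
    rw [abs_lt] at a0 a1 a2 b0 b1 b2 c0 c1 c2
    have u : 7 / 10 < q 0 1 * r 0 2 - q 0 2 * r 0 1 := by nlinarith
    have v : |q 0 2 * r 0 0 - q 0 0 * r 0 2| < 1 := abs_lt.2 ⟨by nlinarith, by nlinarith⟩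
    have w : |q 0 0 * r 0 1 - q 0 1 * r 0 0| < 1 := abs_lt.2 ⟨by nlinarith, by nlinarith⟩
    rw [abs_lt] at v w
    nlinarith
  obtain ⟨w0, A', h1, h2, h3⟩ := sh (A 0) (hA 0) _ hw
  have := H (Function.update A 0 A') fun i => by
    rcases eq_or_ne i 0 with rfl | h
    · simpa using h1
    · simpa [h] using hA i
  have e1 : Function.update A 0 A' 1 = A 1 := rfl
  have e2 : Function.update A 0 A' 2 = A 2 := rfl
  simp only [G, Fin.prod_univ_three, Fin.sum_univ_three, Function.update_self, e1, e2] at this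
  erw [dt p q r, dt p q r, h2, h3] at this
  have d0 := (hA 0).det_pos
  have d1 := (hA 1).det_pos
  have d2 := (hA 2).det_pos
  have c0 := hc 0
  have c1 := hc 1
  have c2 := hc 2
  refine this.not_gt (Real.sqrt_lt_sqrt (by positivity) (div_lt_div_of_pos_left (by positivity)
    (by positivity) ?_))
  gcongr
  linarith

end Pool.Agent.Results.MP_b8a264_an.No
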